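import Mathlib

/-!
# The spread of PGL(2, q), q odd, is at most q - 2

For a finite field `F` with `q` elements in which `2 ≠ 0`, the `q - 1` involutions
`x_b = [0 b; 1 0]` (`b` a unit) of `PGL(2, F)` have no common mate: for every `y` there is
a unit `b` such that `x_b` and `y` do not generate the group.
-/

open Matrix
open scoped MatrixGroups

namespace Pool.Agent.Results.MP_9e452d_al.SpreadUpperBound

/-- The group `G` has the property defining `s(G) ≥ k`: for all non-identity elements
`x 0, ..., x (k - 1)` (not necessarily distinct) there is `y` such that `x i` and `y`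
generate `G`, for every `i`. -/
def HasSpread (G : Type) [Group G] (k : ℕ) : Prop :=
  ∀ x : Fin k → G, (∀ i, x i ≠ 1) → ∃ y : G, ∀ i, Subgroup.closure {x i, y} = ⊤

/-- The group `G` has the property defining `u(G) ≥ k`: there is an element `c` such that for
all non-identity elements `x 0, ..., x (k - 1)` there is a conjugate `y` of `c` such that
`x i` and `y` generate `G`, for every `i`. -/
def HasUniformSpread (G : Type) [Group G] (k : ℕ) : Prop :=
  ∃ c : G, ∀ x : Fin k → G, (∀ i, x i ≠ 1) →
    ∃ y : G, IsConj c y ∧ ∀ i, Subgroup.closure {x i, y} = ⊤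

section dihedral

/-- In a group generated by an involution `x` and an element `g` with `(g x) ^ 2 = 1`, every
element conjugates `g` to `g` or to its inverse. -/
lemma conj_of_mem {G : Type} [Group G] {x g : G} (hx : x * x = 1)
    (hgx : g * x * (g * x) = 1) {u : G} (hu : u ∈ Subgroup.closure {x, g}) :
    u * g * u⁻¹ = g ∨ u * g * u⁻¹ = g⁻¹ := by
  induction hu using Subgroup.closure_induction with
  | mem y hy =>
    rcases hy with rfl | hy
    · right
      have h1 : y⁻¹ = y := inv_eq_of_mul_eq_one_left hx
      rw [h1]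
      have h2 : g * (y * g * y) = 1 := by
        simpa [mul_assoc] using hgx
      exact (inv_eq_of_mul_eq_one_right h2).symm
    · left
      rw [Set.mem_singleton_iff] at hy
      subst hy
      group
  | one => left; simp
  | mul a b _ _ ha hb =>
    have e : a * b * g * (a * b)⁻¹ = a * (b * g * b⁻¹) * a⁻¹ := by group
    rw [e]
    rcases hb with hb | hb <;> rw [hb]
    · exact ha
    · have e2 : a * g⁻¹ * a⁻¹ = (a * g * a⁻¹)⁻¹ := by group
      rw [e2]
      rcases ha with ha | ha <;> rw [ha]
      · right; rfl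
      · left; simp
  | inv a _ ha =>
    rcases ha with ha | ha
    · left
      have : g = a⁻¹ * g * a := by
        calc g = a⁻¹ * (a * g * a⁻¹) * a := by group
          _ = a⁻¹ * g * a := by rw [ha]
      rw [inv_inv]
      exact this.symm
    · right
      rw [inv_inv]
      have : g⁻¹ = a⁻¹ * g * a := by
        calc g⁻¹ = a⁻¹ * (a * g * a⁻¹)⁻¹ * a := by group
          _ = a⁻¹ * g * a := by rw [ha, inv_inv]
      exact this.symm

/-- In such a group all squares commute with `g`. -/
lemma sq_comm {G : Type} [Group G] {x g : G} (hx : x * x = 1)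
    (hgx : g * x * (g * x) = 1) (htop : Subgroup.closure {x, g} = ⊤) (u : G) :
    u * u * g = g * (u * u) := by
  have hu : u ∈ Subgroup.closure {x, g} := by rw [htop]; trivial
  have h := conj_of_mem hx hgx hu
  have key : u * (u * g * u⁻¹) * u⁻¹ = g := by
    rcases h with h | h
    · rw [h, h]
    · rw [h]
      have e2 : u * g⁻¹ * u⁻¹ = (u * g * u⁻¹)⁻¹ := by group
      rw [e2, h, inv_inv]
  calc u * u * g = u * (u * g * u⁻¹) * u⁻¹ * (u * u) := by group
    _ = g * (u * u) := by rw [key]

end dihedral

section field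

variable {F : Type} [Field F]

/-- The matrix `[0 b; 1 0]`. -/
def X (b : Fˣ) : GL (Fin 2) F :=
  Matrix.GeneralLinearGroup.mkOfDetNeZero !![0, (b : F); 1, 0] (by simp)

lemma X_val (b : Fˣ) : (X b).1 = !![0, (b : F); 1, 0] := rfl

/-- The matrix `[1 1; 0 1]`. -/
def U : GL (Fin 2) F :=
  Matrix.GeneralLinearGroup.mkOfDetNeZero !![1, 1; 0, 1] (by simp)

lemma U_val : (U : GL (Fin 2) F).1 = !![1, 1; 0, 1] := rfl

/-- A proper subgroup of `GL` containing the scalars and two elements shows that the images of
these elements do not generate `PGL`. -/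
lemma closure_ne_top (H : Subgroup (GL (Fin 2) F)) (hc : ∀ u : Fˣ, .scalar (Fin 2) u ∈ H)
    {x g z : GL (Fin 2) F} (hx : x ∈ H) (hg : g ∈ H) (hz : z ∉ H) :
    Subgroup.closure {ProjGenLinGroup.mk x, ProjGenLinGroup.mk g} ≠ ⊤ := by
  intro htop
  apply hz
  have h1 : Subgroup.closure {ProjGenLinGroup.mk x, ProjGenLinGroup.mk g}
      ≤ H.map ProjGenLinGroup.mk := by
    rw [Subgroup.closure_le]
    rintro y (rfl | hy)
    · exact Subgroup.mem_map_of_mem _ hx
    · rw [Set.mem_singleton_iff] at hy
      subst hy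
      exact Subgroup.mem_map_of_mem _ hg
  rw [htop] at h1
  have h2 : ProjGenLinGroup.mk z ∈ H.map ProjGenLinGroup.mk := h1 trivial
  obtain ⟨w, hw, hwz⟩ := h2
  rw [ProjGenLinGroup.mk_eq_mk_iff] at hwz
  obtain ⟨u, hu⟩ := hwz
  rw [← hu]
  exact H.mul_mem hw (hc u)

/-- The stabilizer of the line spanned by a nonzero vector. -/
def lineStab (v : Fin 2 → F) (hv : v ≠ 0) : Subgroup (GL (Fin 2) F) where
  carrier := {h | ∃ c : F, h.1 *ᵥ v = c • v}
  one_mem' := ⟨1, by simp⟩
  mul_mem' := by
    rintro a b ⟨c, hc⟩ ⟨d, hd⟩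
    refine ⟨d * c, ?_⟩
    rw [Units.val_mul, ← Matrix.mulVec_mulVec, hd, Matrix.mulVec_smul, hc, smul_smul]
  inv_mem' := by
    rintro a ⟨c, hc⟩
    have e : v = c • ((a⁻¹).1 *ᵥ v) := by
      rw [← Matrix.mulVec_smul, ← hc, Matrix.mulVec_mulVec, ← Units.val_mul, inv_mul_cancel]
      simp
    have hc0 : c ≠ 0 := by
      rintro rfl
      apply hv
      rw [e, zero_smul]
    refine ⟨c⁻¹, ?_⟩
    calc (a⁻¹).1 *ᵥ v = c⁻¹ • (c • ((a⁻¹).1 *ᵥ v)) := by rw [smul_smul, inv_mul_cancel₀ hc0, one_smul]
      _ = c⁻¹ • v := by rw [← e]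

/-- The monomial matrices. -/
def monomial : Subgroup (GL (Fin 2) F) where
  carrier := {h | (h.1 0 0 = 0 ∧ h.1 1 1 = 0) ∨ (h.1 0 1 = 0 ∧ h.1 1 0 = 0)}
  one_mem' := by right; simp
  mul_mem' := by
    rintro a b ha hb
    simp only [Set.mem_ofPred_eq, Units.val_mul, Matrix.mul_apply, Fin.sum_univ_two] at ha hb ⊢
    rcases ha with ⟨h1, h2⟩ | ⟨h1, h2⟩ <;> rcases hb with ⟨h3, h4⟩ | ⟨h3, h4⟩ <;>
      simp [h1, h2, h3, h4]
  inv_mem' := by
    rintro a ha
    simp only [Set.mem_ofPred_eq] at ha ⊢
    rw [Matrix.coe_units_inv, Matrix.inv_def, Matrix.adjugate_fin_two]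
    rcases ha with ⟨h1, h2⟩ | ⟨h1, h2⟩ <;> simp [h1, h2]

/-- The matrices whose determinant is a square. -/
def squareDet : Subgroup (GL (Fin 2) F) :=
  (powMonoidHom 2 : Fˣ →* Fˣ).range.comap Matrix.GeneralLinearGroup.det

/-- For every `g` there is `b` such that the images of `[0 b; 1 0]` and `g` do not
generate `PGL(2, F)`. -/
lemma exists_b [Fintype F] (h2 : (2 : F) ≠ 0) (g : GL (Fin 2) F) :
    ∃ b : Fˣ, Subgroup.closure {ProjGenLinGroup.mk (X b), ProjGenLinGroup.mk g} ≠ ⊤ := by
  set p := g.1 0 0 with hp
  set r := g.1 0 1 with hr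
  set s := g.1 1 0 with hs
  set t := g.1 1 1 with ht
  have hg : g.1 = !![p, r; s, t] := by
    ext i j
    fin_cases i <;> fin_cases j <;> rfl
  have hdet : p * t - r * s ≠ 0 := by
    have := g.det_ne_zero
    rwa [hg, Matrix.det_fin_two_of] at this
  -- the line case
  have line : ∀ v0 v1 c : F, v0 ≠ 0 → v1 ≠ 0 → g.1 *ᵥ ![v0, v1] = c • ![v0, v1] →
      ∃ b : Fˣ, Subgroup.closure {ProjGenLinGroup.mk (X b), ProjGenLinGroup.mk g} ≠ ⊤ := by
    intro v0 v1 c h0 h1 hgv
    have hv : ![v0, v1] ≠ 0 := by
      intro h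
      exact h0 (congrFun h 0)
    refine ⟨Units.mk0 ((v0 / v1) ^ 2) (pow_ne_zero _ (div_ne_zero h0 h1)),
      closure_ne_top (lineStab ![v0, v1] hv) ?_ ?_ ⟨c, hgv⟩ (z := U) ?_⟩
    · intro u
      refine ⟨u, ?_⟩
      rw [Matrix.GeneralLinearGroup.coe_scalar]
      simp [Matrix.scalar_apply]
    · refine ⟨v0 / v1, ?_⟩
      rw [X_val]
      ext i
      fin_cases i
      · simp
        field_simp
      · simp
        field_simp
    · rintro ⟨d, hd⟩
      rw [U_val] at hd
      have e0 := congrFun hd 0
      have e1 := congrFun hd 1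
      simp at e0 e1
      have hd1 : d = 1 := by
        have : (d - 1) * v1 = 0 := by linear_combination -e1
        rcases mul_eq_zero.1 this with h | h
        · exact sub_eq_zero.1 h
        · exact absurd h h1
      apply h1
      rw [hd1] at e0
      linear_combination e0
  -- the square determinant case
  have sqc : p = t → r * s = 0 →
      ∃ b : Fˣ, Subgroup.closure {ProjGenLinGroup.mk (X b), ProjGenLinGroup.mk g} ≠ ⊤ := by
    intro hpt hrs
    have hp0 : p ≠ 0 := by
      rintro h0
      apply hdet
      rw [h0, hrs]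
      ring
    have hchar : ringChar F ≠ 2 := by
      intro hc
      apply h2
      have := CharP.cast_eq_zero F (ringChar F)
      rw [hc] at this
      exact_mod_cast this
    obtain ⟨a, ha⟩ := FiniteField.exists_nonsquare hchar
    have ha0 : a ≠ 0 := by
      rintro rfl
      exact ha ⟨0, by simp⟩
    refine ⟨-1, closure_ne_top squareDet ?_ ?_ ?_
      (z := Matrix.GeneralLinearGroup.mkOfDetNeZero !![a, 0; 0, 1] (by simpa using ha0)) ?_⟩
    · intro u
      refine ⟨u, ?_⟩
      rw [Matrix.GeneralLinearGroup.det_scalar]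
      simp
    · refine ⟨1, ?_⟩
      ext
      simp [X_val, Matrix.det_fin_two_of]
    · refine ⟨Units.mk0 p hp0, ?_⟩
      ext
      simp [hg, Matrix.det_fin_two_of]
      rw [← hpt, hrs]
      ring
    · rintro ⟨w, hw⟩
      apply ha
      refine ⟨w, ?_⟩
      have := congrArg Units.val hw
      simp at this
      rw [← this]
      ring
  by_cases hr0 : r = 0
  · by_cases hs0 : s = 0
    · -- diagonal case
      refine ⟨1, closure_ne_top monomial ?_ ?_ ?_ (z := U) ?_⟩
      · intro u
        right
        rw [Matrix.GeneralLinearGroup.coe_scalar]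
        simp
      · left
        rw [X_val]
        simp
      · right
        exact ⟨hr0, hs0⟩
      · rintro (⟨h, -⟩ | ⟨h, -⟩)
        · rw [U_val] at h
          simp at h
        · rw [U_val] at h
          simp at h
    · by_cases hpt : p = t
      · exact sqc hpt (by rw [hr0, zero_mul])
      · refine line (p - t) s p (sub_ne_zero.2 hpt) hs0 ?_
        rw [hg, hr0]
        ext i
        fin_cases i
        · simp
          ring
        · simp
          ring
  · by_cases hs0 : s = 0
    · by_cases hpt : p = t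
      · exact sqc hpt (by rw [hs0, mul_zero])
      · refine line r (t - p) t hr0 (sub_ne_zero.2 (Ne.symm hpt)) ?_
        rw [hg, hs0]
        ext i
        fin_cases i
        · simp
          ring
        · simp
          ring
    · -- dihedral case
      refine ⟨Units.mk0 (-r / s) (div_ne_zero (neg_ne_zero.2 hr0) hs0), ?_⟩
      intro htop
      have hXX : ProjGenLinGroup.mk (X (Units.mk0 (-r / s)
          (div_ne_zero (neg_ne_zero.2 hr0) hs0))) * ProjGenLinGroup.mk (X (Units.mk0 (-r / s)
          (div_ne_zero (neg_ne_zero.2 hr0) hs0))) = 1 := by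
        rw [← map_mul]
        have : X (Units.mk0 (-r / s) (div_ne_zero (neg_ne_zero.2 hr0) hs0)) *
            X (Units.mk0 (-r / s) (div_ne_zero (neg_ne_zero.2 hr0) hs0)) =
            .scalar (Fin 2) (Units.mk0 (-r / s) (div_ne_zero (neg_ne_zero.2 hr0) hs0)) := by
          apply Units.ext
          rw [Units.val_mul, X_val, Matrix.GeneralLinearGroup.coe_scalar]
          ext i j
          fin_cases i <;> fin_cases j <;> simp
        rw [this, ProjGenLinGroup.mk_scalar]
      have hgX : ProjGenLinGroup.mk g * ProjGenLinGroup.mk (X (Units.mk0 (-r / s)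
          (div_ne_zero (neg_ne_zero.2 hr0) hs0))) * (ProjGenLinGroup.mk g *
          ProjGenLinGroup.mk (X (Units.mk0 (-r / s)
          (div_ne_zero (neg_ne_zero.2 hr0) hs0)))) = 1 := by
        rw [← map_mul, ← map_mul]
        have hne : r * r + p * t * (-r / s) ≠ 0 := by
          have : r * r + p * t * (-r / s) = (p * t - r * s) * (-r / s) := by
            field_simp
            ring
          rw [this]
          exact mul_ne_zero hdet (div_ne_zero (neg_ne_zero.2 hr0) hs0)
        have : g * X (Units.mk0 (-r / s) (div_ne_zero (neg_ne_zero.2 hr0) hs0)) *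
            (g * X (Units.mk0 (-r / s) (div_ne_zero (neg_ne_zero.2 hr0) hs0))) =
            .scalar (Fin 2) (Units.mk0 _ hne) := by
          apply Units.ext
          rw [Units.val_mul, Units.val_mul, X_val, Matrix.GeneralLinearGroup.coe_scalar, hg]
          ext i j
          fin_cases i <;> fin_cases j <;> simp <;> field_simp <;> ring
        rw [this, ProjGenLinGroup.mk_scalar]
      have hcomm := sq_comm hXX hgX htop (ProjGenLinGroup.mk U)
      rw [← map_mul, ← map_mul, ← map_mul, ProjGenLinGroup.mk_eq_mk_iff] at hcomm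
      obtain ⟨l, hl⟩ := hcomm
      have hl' := congrArg Units.val hl
      rw [Units.val_mul, Units.val_mul, Units.val_mul, Units.val_mul, Units.val_mul, U_val, hg,
        Matrix.GeneralLinearGroup.coe_scalar] at hl'
      have e00 := congrFun (congrFun hl' 0) 0
      have e10 := congrFun (congrFun hl' 1) 0
      simp at e00 e10
      have hl1 : (l : F) = 1 := by
        have : s * ((l : F) - 1) = 0 := by linear_combination e10
        rcases mul_eq_zero.1 this with h | h
        · exact absurd h hs0
        · exact sub_eq_zero.1 h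
      rw [hl1] at e00
      have : (2 : F) * s = 0 := by linear_combination e00
      exact mul_ne_zero h2 hs0 this

end field

/-- **Upper bound for the spread of `PGL(2, q)`, `q` odd.** If the finite field `F` has
`2 ≠ 0` and `q` elements and `PGL(2, F)` has spread at least `k` (in particular if it has
uniform spread at least `k`), then `k ≤ q - 2`. -/
theorem result (F : Type) [Field F] [Fintype F] (h2 : (2 : F) ≠ 0) :
    (∀ k : ℕ, HasSpread PGL(2, F) k → k + 2 ≤ Fintype.card F) ∧
    (∀ k : ℕ, HasUniformSpread PGL(2, F) k → k + 2 ≤ Fintype.card F) := by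
  have main : ∀ k : ℕ, HasSpread PGL(2, F) k → k + 2 ≤ Fintype.card F := by
    classical
    intro k hk
    by_contra hlt
    push Not at hlt
    have hcard : Fintype.card Fˣ ≤ Fintype.card (Fin k) := by
      rw [Fintype.card_fin, Fintype.card_units]
      omega
    obtain ⟨f, hf⟩ : ∃ f : Fin k → Fˣ, Function.Surjective f := by
      obtain ⟨e⟩ := Function.Embedding.nonempty_of_card_le hcard
      exact ⟨Function.invFun e, Function.invFun_surjective e.injective⟩
    obtain ⟨y, hy⟩ := hk (fun i => ProjGenLinGroup.mk (X (f i))) (by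
      intro i h
      rw [ProjGenLinGroup.mk_eq_one, Matrix.GeneralLinearGroup.center_eq_range_scalar] at h
      obtain ⟨u, hu⟩ := h
      have := congrArg Units.val hu
      rw [X_val, Matrix.GeneralLinearGroup.coe_scalar] at this
      have e := congrFun (congrFun this 1) 0
      simp at e)
    obtain ⟨g, rfl⟩ := ProjGenLinGroup.mk_surjective y
    obtain ⟨b, hb⟩ := exists_b h2 g
    obtain ⟨i, rfl⟩ := hf b
    exact hb (hy i)
  refine ⟨main, ?_⟩
  rintro k ⟨c, hc⟩
  apply main
  intro x hx
  obtain ⟨y, -, hy⟩ := hc x hx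
  exact ⟨y, hy⟩

end Pool.Agent.Results.MP_9e452d_al.SpreadUpperBound
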